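import Pool.Agent.Helper70.HS.Stmts

/-!
From bounded pieces to all families of lines in coordinates (module COORD).
-/

namespace Pool.Agent.Helper70.HS

open Finset
open Pool.Agent.Helper69.RK (CH cel Yt ht Sys mass)

noncomputable section

/-- the set in the coordinates of the piece -/
def coordE {m : ℕ} (E : Set ((Fin m → ℝ) × ℝ)) (i : ℤ) (j i0 : Fin m → ℤ) :
    Set ((Fin m → ℝ) × ℝ) := {p | ((fun r => p.1 r + j r + p.2 * i0 r), p.2 + i) ∈ E}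

/-- the line in the coordinates of the piece -/
def coordL {m : ℕ} (i : ℤ) (j i0 : Fin m → ℤ) (l : (Fin m → ℝ) × (Fin m → ℝ)) :
    (Fin m → ℝ) × (Fin m → ℝ) := ((fun r => l.1 r + i * l.2 r - j r), (fun r => l.2 r - i0 r))

theorem coord_dimE {m : ℕ} (E : Set ((Fin m → ℝ) × ℝ)) (i : ℤ) (j i0 : Fin m → ℤ) :
    dimH (coordE E i j i0) ≤ dimH E := by
  have hc : ContDiffOn ℝ 1 (fun p : (Fin m → ℝ) × ℝ =>
      (((fun r => p.1 r - j r - (p.2 - i) * i0 r), p.2 - i) : (Fin m → ℝ) × ℝ)) Set.univ := by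
    apply ContDiff.contDiffOn
    fun_prop
  have h := hc.dimH_image_le convex_univ (Set.subset_univ E)
  refine le_trans (dimH_mono ?_) h
  intro p hp
  refine ⟨((fun r => p.1 r + j r + p.2 * i0 r), p.2 + i), hp, ?_⟩
  refine Prod.ext ?_ ?_
  · funext r
    change p.1 r + j r + p.2 * i0 r - j r - (p.2 + i - i) * i0 r = p.1 r
    ring
  · change p.2 + i - i = p.2
    ring

theorem coord_hts {m : ℕ} (E : Set ((Fin m → ℝ) × ℝ)) (i : ℤ) (j i0 : Fin m → ℤ)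
    (l : (Fin m → ℝ) × (Fin m → ℝ)) :
    {t : ℝ | (Yt t l.1 l.2, t) ∈ E} ∩ Set.Ico (i : ℝ) (i + 1) ⊆
      (fun t : Fin 1 → ℝ => t 0 + i) ''
        (Hts (coordE E i j i0) (coordL i j i0 l).1 (coordL i j i0 l).2) := by
  rintro t ⟨ht, ht1, ht2⟩
  refine ⟨fun _ => t - i, ⟨by linarith, by linarith, ?_⟩, by simp⟩
  have h : (Yt t l.1 l.2, t) ∈ E := ht
  change ((fun r => Yt (t - i) (coordL i j i0 l).1 (coordL i j i0 l).2 r + j r + (t - i) * i0 r),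
    t - i + i) ∈ E
  have h1 : (fun r => Yt (t - i) (coordL i j i0 l).1 (coordL i j i0 l).2 r + j r +
      (t - i) * i0 r) = Yt t l.1 l.2 := by
    funext r
    simp only [Yt, coordL]
    ring
  rw [h1, sub_add_cancel]
  exact h

theorem coord_lip (i : ℤ) (X : Set (Fin 1 → ℝ)) :
    dimH ((fun t : Fin 1 → ℝ => t 0 + i) '' X) ≤ dimH X := by
  have h : LipschitzWith 1 (fun t : Fin 1 → ℝ => t 0 + i) := by
    refine LipschitzWith.of_dist_le_mul ?_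
    intro s t
    rw [NNReal.coe_one, one_mul, dist_add_right]
    exact dist_le_pi_dist s t 0
  exact h.dimH_image_le X

theorem coord_floor (i : ℤ) (u v : ℝ) (hu : 0 ≤ u) (hu1 : u < 1) (hv : 0 ≤ v) (hv1 : v < 1) :
    -|i| ≤ ⌊u + i * v⌋ ∧ ⌊u + i * v⌋ ≤ |i| + 1 := by
  have h1 : |(i : ℝ) * v| ≤ |(i : ℝ)| := by
    rw [abs_mul, abs_of_nonneg hv]
    exact mul_le_of_le_one_right (abs_nonneg _) hv1.le
  have h2 := abs_le.1 h1
  constructor
  · rw [Int.le_floor]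
    push_cast
    linarith [h2.1]
  · have h3 : (⌊u + i * v⌋ : ℝ) ≤ u + i * v := Int.floor_le _
    have h4 : (⌊u + i * v⌋ : ℝ) ≤ ((|i| + 1 : ℤ) : ℝ) := by
      push_cast
      linarith [h2.2]
    exact_mod_cast h4

theorem coord_box {m : ℕ} (s M : ℝ) (i : ℤ) (j i0 : Fin m → ℤ)
    (P : Set ((Fin m → ℝ) × (Fin m → ℝ))) (h : Box s M P) :
    ∃ M' : ℝ, 1 ≤ M' ∧ Box s M' (coordL i j i0 '' P) := by
  classical
  refine ⟨max 1 (M * ((2 * |i| + 2).toNat : ℝ) ^ m), le_max_left _ _, ?_⟩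
  intro k
  obtain ⟨F, hF, hc⟩ := h k
  set D : Finset (Fin m → ℤ) := Fintype.piFinset fun _ => Finset.Icc (-|i|) (|i| + 1) with hD
  have hDc : D.card = ((2 * |i| + 2).toNat) ^ m := by
    rw [hD, Fintype.card_piFinset, Finset.prod_const, Int.card_Icc, Finset.card_univ,
      Fintype.card_fin]
    congr 2
    ring
  refine ⟨(F ×ˢ D).image (fun q => ((fun r => q.1.1 r + i * q.1.2 r + q.2 r - 2 ^ k * j r),
    (fun r => q.1.2 r - 2 ^ k * i0 r))), ?_, ?_⟩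
  · rintro l' ⟨l, hl, rfl⟩
    rw [Finset.mem_image]
    refine ⟨((cel k l.1, cel k l.2), fun r => ⌊(2 ^ k * l.1 r - ⌊(2 : ℝ) ^ k * l.1 r⌋) +
      i * (2 ^ k * l.2 r - ⌊(2 : ℝ) ^ k * l.2 r⌋)⌋), ?_, ?_⟩
    · rw [Finset.mem_product]
      refine ⟨hF l hl, ?_⟩
      rw [hD, Fintype.mem_piFinset]
      intro r
      rw [Finset.mem_Icc]
      refine coord_floor i _ _ ?_ ?_ ?_ ?_
      · linarith [Int.floor_le ((2 : ℝ) ^ k * l.1 r)]
      · linarith [Int.lt_floor_add_one ((2 : ℝ) ^ k * l.1 r)]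
      · linarith [Int.floor_le ((2 : ℝ) ^ k * l.2 r)]
      · linarith [Int.lt_floor_add_one ((2 : ℝ) ^ k * l.2 r)]
    · refine Prod.ext ?_ ?_
      · funext r
        simp only [cel, coordL]
        have h1 : (2 : ℝ) ^ k * (l.1 r + i * l.2 r - j r) =
            ((2 ^ k * l.1 r - ⌊(2 : ℝ) ^ k * l.1 r⌋) +
              i * (2 ^ k * l.2 r - ⌊(2 : ℝ) ^ k * l.2 r⌋)) +
            ((⌊(2 : ℝ) ^ k * l.1 r⌋ + i * ⌊(2 : ℝ) ^ k * l.2 r⌋ - 2 ^ k * j r : ℤ) : ℝ) := by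
          push_cast
          ring
        rw [h1, Int.floor_add_intCast]
        ring
      · funext r
        simp only [cel, coordL]
        have h1 : (2 : ℝ) ^ k * (l.2 r - i0 r) = 2 ^ k * l.2 r - ((2 ^ k * i0 r : ℤ) : ℝ) := by
          push_cast
          ring
        rw [h1, Int.floor_sub_intCast]
  · have h1 : (((F ×ˢ D).image (fun q : ((Fin m → ℤ) × (Fin m → ℤ)) × (Fin m → ℤ) =>
        ((fun r => q.1.1 r + i * q.1.2 r + q.2 r - 2 ^ k * j r),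
        (fun r => q.1.2 r - 2 ^ k * i0 r)))).card : ℝ) ≤ (F.card : ℝ) * D.card := by
      rw [← Nat.cast_mul, ← Finset.card_product]
      exact_mod_cast Finset.card_image_le
    refine h1.trans ?_
    have h2 : (F.card : ℝ) * D.card ≤ M * (2 : ℝ) ^ (s * k) * D.card :=
      mul_le_mul_of_nonneg_right hc (Nat.cast_nonneg _)
    refine h2.trans ?_
    rw [hDc]
    have h3 : M * (2 : ℝ) ^ (s * k) * ((((2 * |i| + 2).toNat) ^ m : ℕ) : ℝ) =
        (M * ((2 * |i| + 2).toNat : ℝ) ^ m) * (2 : ℝ) ^ (s * k) := by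
      push_cast
      ring
    rw [h3]
    exact mul_le_mul_of_nonneg_right (le_max_right _ _) (by positivity)

theorem coord_mono {m : ℕ} {σ c c' : ℝ} {X : Set (Fin m → ℝ)} (h : Cont σ c X) (hc : c' ≤ c) :
    Cont σ c' X := fun Q hQ => (ENNReal.ofReal_le_ofReal hc).trans (h Q hQ)

theorem coord_box_mono {m : ℕ} {s M : ℝ} {P P' : Set ((Fin m → ℝ) × (Fin m → ℝ))}
    (h : Box s M P) (hs : P' ⊆ P) : Box s M P' := by
  intro k
  obtain ⟨F, hF, hc⟩ := h k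
  exact ⟨F, fun l hl => hF l (hs hl), hc⟩

theorem st_COORD (h1 : ST_UNIT) (h2 : ST_CONT) : ST_COORD := by
  intro m s hG hs L E hP hdim hh
  by_contra hcon
  rw [not_le] at hcon
  -- choose `d`
  obtain ⟨d, hd0, hd1, hd2⟩ : ∃ d : ℝ, 0 < d ∧ d < s + 1 ∧ dimH E < ENNReal.ofReal d := by
    obtain ⟨q, hq0, hq1, hq2⟩ := ENNReal.lt_iff_exists_real_btwn.1 hcon
    have hq3 : q < s + 1 := (ENNReal.ofReal_lt_ofReal_iff (by linarith)).1 hq2
    refine ⟨max q ((s + 1) / 2), lt_of_lt_of_le (by linarith) (le_max_right _ _),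
      max_lt hq3 (by linarith), lt_of_lt_of_le hq1 (ENNReal.ofReal_le_ofReal (le_max_left _ _))⟩
  obtain ⟨η, hη0, hηs, hη1, hU⟩ := h1 m s d hG hs hd0 hd1
  obtain ⟨P, hLP, hPB⟩ := hP η hη0
  -- the pieces
  set Lp : (ℕ × ℤ × (Fin m → ℤ) × (Fin m → ℤ) × ℕ) → Set ((Fin m → ℝ) × (Fin m → ℝ)) :=
    fun w => {l | l ∈ P w.1 ∧ (∀ r, (0 ≤ (coordL w.2.1 w.2.2.1 w.2.2.2.1 l).1 r ∧
        (coordL w.2.1 w.2.2.1 w.2.2.2.1 l).1 r < 1) ∧
      (0 ≤ (coordL w.2.1 w.2.2.1 w.2.2.2.1 l).2 r ∧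
        (coordL w.2.1 w.2.2.1 w.2.2.2.1 l).2 r < 1)) ∧
      Cont (1 - η) (1 / ((w.2.2.2.2 : ℝ) + 1)) (Hts (coordE E w.2.1 w.2.2.1 w.2.2.2.1)
        (coordL w.2.1 w.2.2.1 w.2.2.2.1 l).1 (coordL w.2.1 w.2.2.1 w.2.2.2.1 l).2)} with hLp
  have hcov : L ⊆ ⋃ w, Lp w := by
    intro l hl
    obtain ⟨k, hk⟩ := Set.mem_iUnion.1 (hLP hl)
    have hT : {t : ℝ | (Yt t l.1 l.2, t) ∈ E} =
        ⋃ i : ℤ, ({t : ℝ | (Yt t l.1 l.2, t) ∈ E} ∩ Set.Ico (i : ℝ) (i + 1)) := by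
      ext t
      simp only [Set.mem_iUnion, Set.mem_inter_iff, Set.mem_Ico]
      constructor
      · intro ht
        exact ⟨⌊t⌋, ht, Int.floor_le t, Int.lt_floor_add_one t⟩
      · rintro ⟨_, ht, _⟩
        exact ht
    have hd : ENNReal.ofReal (1 - η) < dimH {t : ℝ | (Yt t l.1 l.2, t) ∈ E} := by
      refine lt_of_lt_of_le ?_ (hh l hl)
      rw [← ENNReal.ofReal_one]
      exact (ENNReal.ofReal_lt_ofReal_iff one_pos).2 (by linarith)
    rw [hT, dimH_iUnion, lt_iSup_iff] at hd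
    obtain ⟨i, hi⟩ := hd
    set j : Fin m → ℤ := fun r => ⌊l.1 r + i * l.2 r⌋ with hj
    set i0 : Fin m → ℤ := fun r => ⌊l.2 r⌋ with hi0
    have hi2 : ENNReal.ofReal (1 - η) <
        dimH (Hts (coordE E i j i0) (coordL i j i0 l).1 (coordL i j i0 l).2) :=
      lt_of_lt_of_le hi ((dimH_mono (coord_hts E i j i0 l)).trans (coord_lip i _))
    obtain ⟨c, hc0, hc⟩ := h2 1 (1 - η) _ (by linarith) hi2
    obtain ⟨q, hq⟩ := exists_nat_one_div_lt hc0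
    refine Set.mem_iUnion.2 ⟨(k, i, j, i0, q), hk, ?_, coord_mono hc hq.le⟩
    intro r
    refine ⟨⟨?_, ?_⟩, ⟨?_, ?_⟩⟩
    · change 0 ≤ l.1 r + i * l.2 r - ⌊l.1 r + i * l.2 r⌋
      linarith [Int.floor_le (l.1 r + i * l.2 r)]
    · change l.1 r + i * l.2 r - ⌊l.1 r + i * l.2 r⌋ < 1
      linarith [Int.lt_floor_add_one (l.1 r + i * l.2 r)]
    · change 0 ≤ l.2 r - ⌊l.2 r⌋
      linarith [Int.floor_le (l.2 r)]
    · change l.2 r - ⌊l.2 r⌋ < 1
      linarith [Int.lt_floor_add_one (l.2 r)]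
  have hdir : ENNReal.ofReal (s - η) < ⨆ w, dimH (Prod.snd '' Lp w) := by
    rw [← dimH_iUnion, ← Set.image_iUnion]
    refine lt_of_lt_of_le ?_ (hdim.trans (dimH_mono (Set.image_mono hcov)))
    exact (ENNReal.ofReal_lt_ofReal_iff hs).2 (by linarith)
  rw [lt_iSup_iff] at hdir
  obtain ⟨⟨k, i, j, i0, q⟩, hw⟩ := hdir
  obtain ⟨M0, hM0⟩ := hPB k
  obtain ⟨M, hM1, hM⟩ := coord_box (s + η) M0 i j i0 (Lp (k, i, j, i0, q))
    (coord_box_mono hM0 fun l hl => hl.1)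
  have hsnd : Prod.snd '' (coordL i j i0 '' Lp (k, i, j, i0, q)) =
      (IsometryEquiv.subRight (fun r => (i0 r : ℝ))) '' (Prod.snd '' Lp (k, i, j, i0, q)) := by
    rw [Set.image_image, Set.image_image]
    rfl
  have hw2 : ENNReal.ofReal (s - η) < dimH (Prod.snd '' (coordL i j i0 '' Lp (k, i, j, i0, q))) := by
    rw [hsnd, IsometryEquiv.dimH_image]
    exact hw
  obtain ⟨c0, hc0, hc0'⟩ := h2 m (s - η) _ (by linarith) hw2
  have hfin := hU M (min c0 (1 / ((q : ℝ) + 1))) (coordL i j i0 '' Lp (k, i, j, i0, q))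
    (coordE E i j i0) hM1 (lt_min hc0 (by positivity)) ?_ hM (coord_mono hc0' (min_le_left _ _)) ?_
  · exact absurd (hfin.trans (coord_dimE E i j i0)) (not_le.2 hd2)
  · rintro l' ⟨l, hl, rfl⟩ r
    exact hl.2.1 r
  · rintro l' ⟨l, hl, rfl⟩
    exact coord_mono hl.2.2 (min_le_right _ _)

end

end Pool.Agent.Helper70.HS
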