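import Pool.Agent.Helper70.HS.Stmts2
import Pool.Agent.Helper63.HS.COORD

/-!
Robust form of COORD (module COORD2).
-/

namespace Pool.Agent.Helper70.HS

open Finset
open Pool.Agent.Helper69.RK (CH cel Yt ht Sys mass)

noncomputable section

theorem coord2_box_exp {m : ℕ} {s s' M : ℝ} {P : Set ((Fin m → ℝ) × (Fin m → ℝ))}
    (h : Box s M P) (hs : s ≤ s') (hM : 0 ≤ M) : Box s' M P := by
  intro k
  obtain ⟨F, hF, hc⟩ := h k
  refine ⟨F, hF, hc.trans (mul_le_mul_of_nonneg_left ?_ hM)⟩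
  exact Real.rpow_le_rpow_of_exponent_le (by norm_num)
    (mul_le_mul_of_nonneg_right hs (Nat.cast_nonneg k))

theorem st_COORD2 (h1 : ST_UNIT) (h2 : ST_CONT) : ST_COORD2 := by
  intro m s d hG hs hd0 hd1
  obtain ⟨η, hη0, hηs, hη1, hU⟩ := h1 m s d hG hs hd0 hd1
  refine ⟨η / 2, by linarith, by linarith, by linarith, ?_⟩
  rintro L E ⟨P, hLP, hPB⟩ hdim hh
  by_contra hcon
  rw [not_le] at hcon
  -- the pieces
  set Lp : (ℕ × ℤ × (Fin m → ℤ) × (Fin m → ℤ) × ℕ) → Set ((Fin m → ℝ) × (Fin m → ℝ)) :=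
    fun w => {l | l ∈ P w.1 ∧ (∀ r, (0 ≤ (coordL w.2.1 w.2.2.1 w.2.2.2.1 l).1 r ∧
        (coordL w.2.1 w.2.2.1 w.2.2.2.1 l).1 r < 1) ∧
      (0 ≤ (coordL w.2.1 w.2.2.1 w.2.2.2.1 l).2 r ∧
        (coordL w.2.1 w.2.2.1 w.2.2.2.1 l).2 r < 1)) ∧
      Cont (1 - η) (1 / ((w.2.2.2.2 : ℝ) + 1)) (Hts (coordE E w.2.1 w.2.2.1 w.2.2.2.1)
        (coordL w.2.1 w.2.2.1 w.2.2.2.1 l).1 (coordL w.2.1 w.2.2.1 w.2.2.2.1 l).2)} with hLp
  have hcov : L ⊆ ⋃ w, Lp w := by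
    intro l hl
    obtain ⟨k, hk⟩ := Set.mem_iUnion.1 (hLP hl)
    have hT : {t : ℝ | (Yt t l.1 l.2, t) ∈ E} =
        ⋃ i : ℤ, ({t : ℝ | (Yt t l.1 l.2, t) ∈ E} ∩ Set.Ico (i : ℝ) (i + 1)) := by
      ext t
      simp only [Set.mem_iUnion, Set.mem_inter_iff, Set.mem_Ico]
      constructor
      · intro ht
        exact ⟨⌊t⌋, ht, Int.floor_le t, Int.lt_floor_add_one t⟩
      · rintro ⟨_, ht, _⟩
        exact ht
    have hd : ENNReal.ofReal (1 - η) < dimH {t : ℝ | (Yt t l.1 l.2, t) ∈ E} := by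
      refine lt_of_lt_of_le ?_ (hh l hl)
      exact (ENNReal.ofReal_lt_ofReal_iff (by linarith)).2 (by linarith)
    rw [hT, dimH_iUnion, lt_iSup_iff] at hd
    obtain ⟨i, hi⟩ := hd
    set j : Fin m → ℤ := fun r => ⌊l.1 r + i * l.2 r⌋ with hj
    set i0 : Fin m → ℤ := fun r => ⌊l.2 r⌋ with hi0
    have hi2 : ENNReal.ofReal (1 - η) <
        dimH (Hts (coordE E i j i0) (coordL i j i0 l).1 (coordL i j i0 l).2) :=
      lt_of_lt_of_le hi ((dimH_mono (coord_hts E i j i0 l)).trans (coord_lip i _))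
    obtain ⟨c, hc0, hc⟩ := h2 1 (1 - η) _ (by linarith) hi2
    obtain ⟨q, hq⟩ := exists_nat_one_div_lt hc0
    refine Set.mem_iUnion.2 ⟨(k, i, j, i0, q), hk, ?_, coord_mono hc hq.le⟩
    intro r
    refine ⟨⟨?_, ?_⟩, ⟨?_, ?_⟩⟩
    · change 0 ≤ l.1 r + i * l.2 r - ⌊l.1 r + i * l.2 r⌋
      linarith [Int.floor_le (l.1 r + i * l.2 r)]
    · change l.1 r + i * l.2 r - ⌊l.1 r + i * l.2 r⌋ < 1
      linarith [Int.lt_floor_add_one (l.1 r + i * l.2 r)]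
    · change 0 ≤ l.2 r - ⌊l.2 r⌋
      linarith [Int.floor_le (l.2 r)]
    · change l.2 r - ⌊l.2 r⌋ < 1
      linarith [Int.lt_floor_add_one (l.2 r)]
  have hdir : ENNReal.ofReal (s - η) < ⨆ w, dimH (Prod.snd '' Lp w) := by
    rw [← dimH_iUnion, ← Set.image_iUnion]
    refine lt_of_lt_of_le ?_ (hdim.trans (dimH_mono (Set.image_mono hcov)))
    exact (ENNReal.ofReal_lt_ofReal_iff (by linarith)).2 (by linarith)
  rw [lt_iSup_iff] at hdir
  obtain ⟨⟨k, i, j, i0, q⟩, hw⟩ := hdir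
  obtain ⟨M0, hM0⟩ := hPB k
  obtain ⟨M, hM1, hM'⟩ := coord_box (s + η / 2) M0 i j i0 (Lp (k, i, j, i0, q))
    (coord_box_mono hM0 fun l hl => hl.1)
  have hM := coord2_box_exp (s' := s + η) hM' (by linarith) (by linarith)
  have hsnd : Prod.snd '' (coordL i j i0 '' Lp (k, i, j, i0, q)) =
      (IsometryEquiv.subRight (fun r => (i0 r : ℝ))) '' (Prod.snd '' Lp (k, i, j, i0, q)) := by
    rw [Set.image_image, Set.image_image]
    rfl
  have hw2 : ENNReal.ofReal (s - η) < dimH (Prod.snd '' (coordL i j i0 '' Lp (k, i, j, i0, q))) := by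
    rw [hsnd, IsometryEquiv.dimH_image]
    exact hw
  obtain ⟨c0, hc0, hc0'⟩ := h2 m (s - η) _ (by linarith) hw2
  have hfin := hU M (min c0 (1 / ((q : ℝ) + 1))) (coordL i j i0 '' Lp (k, i, j, i0, q))
    (coordE E i j i0) hM1 (lt_min hc0 (by positivity)) ?_ hM (coord_mono hc0' (min_le_left _ _)) ?_
  · exact absurd (hfin.trans (coord_dimE E i j i0)) (not_le.2 hcon)
  · rintro l' ⟨l, hl, rfl⟩ r
    exact hl.2.1 r
  · rintro l' ⟨l, hl, rfl⟩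
    exact coord_mono hl.2.2 (min_le_right _ _)

end

end Pool.Agent.Helper70.HS
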